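import Pool.Agent.N483.KM.Stm
import Pool.Agent.R755.KF.P3W
import Pool.Agent.R755.KF.G1
import Pool.Agent.R755.KF.G2
import Pool.Agent.R755.KF.G3
import Pool.Agent.R755.KF.G4
import Pool.Agent.R755.KF.G5

/-!
# Project KM: variances of functions of `X + √h Z`, the error is linear in `δ`

Adapted from `Pool/Agent/R755/KF/P3W.lean`.
-/

set_option autoImplicit false

namespace Pool.Agent.N123.KM

open MeasureTheory Set Filter Topology
open scoped ENNReal InnerProductSpace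
open Pool.Agent.H888R2.KT (gs gc)
open Pool.Agent.R754.KG (E)
open Pool.Agent.R339.KFaux
open Pool.Agent.R755.KF
open Pool.Agent.R755.KF.P3Waux
open Pool.Agent.N483.KM

variable {k : ℕ}

/-- the variance of a vector field -/
theorem vec' {A δ s B C M R : ℝ} {ν : Measure (E k)} {F : Fin k → E k → ℝ} (hA : 0 < A)
    (hν : PW A δ s B ν) (hF : ∀ j, BL C (F j)) (hM : 0 < M) (hR : ∀ x, ∑ j, F j x ^ 2 ≤ R) :
    ∑ j, (∫ x, F j x ^ 2 ∂ν) - ∑ j, (∫ x, F j x ∂ν) ^ 2 ≤
      2 * (M ^ 2 * δ + A * ∑ j, ∫ x, ‖fderiv ℝ (F j) x‖ ^ 2 ∂ν) +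
        6 / M ^ 2 * R * ∑ j, ∫ x, F j x ^ 2 ∂ν := by
  have := hν.pb.prob
  obtain ⟨Ω, i1, i2, e, h2, h4⟩ := signs k
  have hC : 0 ≤ C ∨ k = 0 := by
    rcases Nat.eq_zero_or_pos k with h | h
    · exact Or.inr h
    · exact Or.inl ((abs_nonneg _).trans ((hF ⟨0, h⟩).bd 0))
  have hcard : (0 : ℝ) < Fintype.card Ω := by
    exact_mod_cast Fintype.card_pos
  have fder : ∀ (i : Ω) (x : E k), fderiv ℝ (fun x => ∑ j, e i j * F j x) x =
      ∑ j, e i j • fderiv ℝ (F j) x := by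
    intro i x
    have : HasFDerivAt (fun x => ∑ j, e i j * F j x) (∑ j, e i j • fderiv ℝ (F j) x) x := by
      refine HasFDerivAt.fun_sum fun j _ => ?_
      exact (((hF j).c1.differentiable (by norm_num) x).hasFDerivAt).const_mul (e i j)
    exact this.fderiv
  have hG : ∀ i : Ω, BL (∑ j, |e i j| * C) (fun x => ∑ j, e i j * F j x) := by
    intro i
    refine ⟨ContDiff.sum fun j _ => contDiff_const.mul (hF j).c1, fun y => ?_, fun y => ?_⟩
    · refine (Finset.abs_sum_le_sum_abs _ _).trans (Finset.sum_le_sum fun j _ => ?_)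
      rw [abs_mul]
      exact mul_le_mul_of_nonneg_left ((hF j).bd y) (abs_nonneg _)
    · rw [fder]
      refine (norm_sum_le _ _).trans (Finset.sum_le_sum fun j _ => ?_)
      rw [norm_smul, Real.norm_eq_abs]
      exact mul_le_mul_of_nonneg_left ((hF j).gd y) (abs_nonneg _)
  have key := fun i : Ω => trunc hA hν (hG i) hM
  have ksum := Finset.sum_le_sum fun (i : Ω) (_ : i ∈ Finset.univ) => key i
  rw [Finset.sum_sub_distrib, sumlem] at ksum
  -- the four sums
  have t1 : ∑ i, ∫ x, (∑ j, e i j * F j x) ^ 2 ∂ν =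
      (Fintype.card Ω : ℝ) * ∑ j, ∫ x, F j x ^ 2 ∂ν := by
    rw [← integral_finsetSum _ fun i _ => P3aux.bc_int (bl_bc (hG i)).sq ν,
      ← integral_finsetSum _ fun j _ => P3aux.bc_int (bl_bc (hF j)).sq ν, ← integral_const_mul]
    refine integral_congr_ae (Filter.Eventually.of_forall fun x => ?_)
    exact h2 (fun j => F j x)
  have t2 : ∑ i, (∫ x, ∑ j, e i j * F j x ∂ν) ^ 2 =
      (Fintype.card Ω : ℝ) * ∑ j, (∫ x, F j x ∂ν) ^ 2 := by
    rw [← h2]
    refine Finset.sum_congr rfl fun i _ => ?_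
    rw [integral_finsetSum _ fun j _ => (P3aux.bc_int (bl_bc (hF j)) ν).const_mul _]
    congr 1
    exact Finset.sum_congr rfl fun j _ => integral_const_mul _ _
  have t3 : ∑ i, ∫ x, ‖fderiv ℝ (fun x => ∑ j, e i j * F j x) x‖ ^ 2 ∂ν =
      (Fintype.card Ω : ℝ) * ∑ j, ∫ x, ‖fderiv ℝ (F j) x‖ ^ 2 ∂ν := by
    rw [← integral_finsetSum _ fun i _ => P3aux.bc_int (gd_bc (hG i)) ν,
      ← integral_finsetSum _ fun j _ => P3aux.bc_int (gd_bc (hF j)) ν, ← integral_const_mul]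
    refine integral_congr_ae (Filter.Eventually.of_forall fun x => ?_)
    simp only
    have e1 : ∀ i : Ω, ‖fderiv ℝ (fun x => ∑ j, e i j * F j x) x‖ ^ 2 =
        ∑ l, (∑ j, e i j * fderiv ℝ (F j) x (EuclideanSpace.single l 1)) ^ 2 := by
      intro i
      rw [norm_sq_functional]
      refine Finset.sum_congr rfl fun l _ => ?_
      rw [fder, _root_.sum_apply]
      rfl
    rw [Finset.sum_congr rfl fun i _ => e1 i, Finset.sum_comm,
      Finset.sum_congr rfl fun l _ => h2 _, ← Finset.mul_sum, Finset.sum_comm]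
    congr 1
    refine Finset.sum_congr rfl fun j _ => ?_
    rw [norm_sq_functional]
  have t4 : ∑ i, ∫ x, (∑ j, e i j * F j x) ^ 4 ∂ν ≤
      3 * (Fintype.card Ω : ℝ) * (R * ∑ j, ∫ x, F j x ^ 2 ∂ν) := by
    have i4 : ∀ i : Ω, Integrable (fun x => (∑ j, e i j * F j x) ^ 4) ν := by
      intro i
      have := P3aux.bc_int (bl_bc (hG i)).sq.sq ν
      refine this.congr (Filter.Eventually.of_forall fun x => ?_)
      simp only
      ring
    have j2 : Integrable (fun x => ∑ j, F j x ^ 2) ν :=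
      integrable_finsetSum _ fun j _ => P3aux.bc_int (bl_bc (hF j)).sq ν
    rw [← integral_finsetSum _ fun i _ => i4 i,
      ← integral_finsetSum _ fun j _ => P3aux.bc_int (bl_bc (hF j)).sq ν, ← integral_const_mul,
      ← integral_const_mul]
    refine integral_mono (integrable_finsetSum _ fun i _ => i4 i)
      ((j2.const_mul _).const_mul _) fun x => ?_
    refine (h4 (fun j => F j x)).trans ?_
    refine mul_le_mul_of_nonneg_left ?_ (by positivity)
    have h6 : 0 ≤ ∑ j, F j x ^ 2 := Finset.sum_nonneg fun j _ => sq_nonneg _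
    rw [pow_two]
    exact mul_le_mul_of_nonneg_right (hR x) h6
  rw [t1, t2, t3] at ksum
  have t6 : 2 / M ^ 2 * ∑ i, ∫ x, (∑ j, e i j * F j x) ^ 4 ∂ν ≤
      2 / M ^ 2 * (3 * (Fintype.card Ω : ℝ) * (R * ∑ j, ∫ x, F j x ^ 2 ∂ν)) :=
    mul_le_mul_of_nonneg_left t4 (by positivity)
  have t7 : (Fintype.card Ω : ℝ) * (∑ j, (∫ x, F j x ^ 2 ∂ν) - ∑ j, (∫ x, F j x ∂ν) ^ 2) ≤
      (Fintype.card Ω : ℝ) * (2 * (M ^ 2 * δ + A * ∑ j, ∫ x, ‖fderiv ℝ (F j) x‖ ^ 2 ∂ν) +
        6 / M ^ 2 * R * ∑ j, ∫ x, F j x ^ 2 ∂ν) := by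
    have e1 : 2 / M ^ 2 * (3 * (Fintype.card Ω : ℝ) * (R * ∑ j, ∫ x, F j x ^ 2 ∂ν)) =
      (Fintype.card Ω : ℝ) * (6 / M ^ 2 * R * ∑ j, ∫ x, F j x ^ 2 ∂ν) := by ring
    linarith
  exact le_of_mul_le_mul_left t7 hcard

open P3aux P3Waux in
/-- variances, error linear in `δ` -/
theorem t_VARL' (h1 : S_IMP) (h2 : S_BE) : S_VARL := by
  refine ⟨1000000, by norm_num, ?_⟩
  intro k h A δ s B C K ν f hA hδ0 hAh hν hf hf2 hK hKb
  have hh : 0 < h := by linarith
  have := hν.pb.prob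
  have fbc := bl_bc hf
  have fbc2 : BC 2 f := ⟨hf.c1.continuous, hf2⟩
  have gbc := gd_bc hf
  have Sbl := gs_bl hf hh
  have Sbc := bl_bc Sbl
  have Gbc := gd_bc Sbl
  have gsf2 := gs_bc fbc.sq hh
  have gsg := gs_bc gbc hh
  have hC : 0 ≤ C := (abs_nonneg _).trans (hf.bd 0)
  set D := ey h ν (fun y => ‖fderiv ℝ f y‖ ^ 2) with hD
  set G := ∫ x, ‖fderiv ℝ (gs h f) x‖ ^ 2 ∂ν with hG
  have hD0 : 0 ≤ D := by
    rw [hD]
    unfold ey
    refine integral_nonneg fun x => ?_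
    have h3 := gs_mono (bc_const (k := k) 0) gbc (fun y => by positivity) hh x
    rwa [gs_one hh] at h3
  -- step 1
  have I0 : Integrable (fun x => 3 / 4 * gs h (fun y => ‖fderiv ℝ f y‖ ^ 2) x) ν :=
    (bc_int gsg ν).const_mul _
  have I0' : Integrable (fun x => 1 / 4 * ‖fderiv ℝ (gs h f) x‖ ^ 2) ν :=
    (bc_int Gbc ν).const_mul _
  have I1 : Integrable (fun x => 3 / 4 * gs h (fun y => ‖fderiv ℝ f y‖ ^ 2) x +
      1 / 4 * ‖fderiv ℝ (gs h f) x‖ ^ 2) ν := I0.add I0'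
  have I2 : Integrable (fun x => h * (3 / 4 * gs h (fun y => ‖fderiv ℝ f y‖ ^ 2) x +
      1 / 4 * ‖fderiv ℝ (gs h f) x‖ ^ 2)) ν := I1.const_mul h
  have p1 : ey h ν (fun y => f y ^ 2) ≤ (∫ x, gs h f x ^ 2 ∂ν) + h * (3 / 4 * D + 1 / 4 * G) := by
    have e1 : (∫ x, gs h f x ^ 2 ∂ν) + h * (3 / 4 * D + 1 / 4 * G) =
        ∫ x, (gs h f x ^ 2 + h * (3 / 4 * gs h (fun y => ‖fderiv ℝ f y‖ ^ 2) x +
          1 / 4 * ‖fderiv ℝ (gs h f) x‖ ^ 2)) ∂ν := by
      rw [integral_add (bc_int Sbc.sq ν) I2, integral_const_mul, integral_add I0 I0',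
        integral_const_mul, integral_const_mul]
      rfl
    rw [e1]
    unfold ey
    refine integral_mono (bc_int gsf2 ν) ((bc_int Sbc.sq ν).add I2) fun x => ?_
    have h3 := h1 k h C f hh hf x
    simp only
    linarith
  -- step 2
  have Sb2 := gs_bc fbc2 hh
  have p2 : (∫ x, gs h f x ^ 2 ∂ν) - (∫ x, gs h f x ∂ν) ^ 2 ≤ 4 * δ + A * G := by
    have hS : BL C (fun x => 1 / 2 * gs h f x) := by
      refine ⟨contDiff_const.mul Sbl.c1, fun y => ?_, fun y => ?_⟩
      · rw [abs_mul, abs_of_pos (by norm_num : (0 : ℝ) < 1 / 2)]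
        have := Sbl.bd y
        have h0 := abs_nonneg (gs h f y)
        linarith
      · have e : fderiv ℝ (fun x => 1 / 2 * gs h f x) y = (1 / 2 : ℝ) • fderiv ℝ (gs h f) y :=
          (((Sbl.c1.differentiable (by norm_num) y).hasFDerivAt).const_mul (1 / 2 : ℝ)).fderiv
        rw [e, norm_smul, Real.norm_eq_abs, abs_of_pos (by norm_num : (0 : ℝ) < 1 / 2)]
        have := Sbl.gd y
        have h0 := norm_nonneg (fderiv ℝ (gs h f) y)
        linarith
    have h3 := hν.poi C _ hS fun y => by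
      rw [abs_mul, abs_of_pos (by norm_num : (0 : ℝ) < 1 / 2)]
      have := Sb2.b y
      linarith
    have e1 : ∫ x, (1 / 2 * gs h f x) ^ 2 ∂ν = 1 / 4 * ∫ x, gs h f x ^ 2 ∂ν := by
      rw [← integral_const_mul]
      refine integral_congr_ae (Filter.Eventually.of_forall fun x => ?_)
      simp only
      ring
    have e2 : ∫ x, 1 / 2 * gs h f x ∂ν = 1 / 2 * ∫ x, gs h f x ∂ν := integral_const_mul _ _
    have e3 : ∫ x, ‖fderiv ℝ (fun x => 1 / 2 * gs h f x) x‖ ^ 2 ∂ν = 1 / 4 * G := by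
      rw [hG, ← integral_const_mul]
      refine integral_congr_ae (Filter.Eventually.of_forall fun x => ?_)
      simp only
      have e : fderiv ℝ (fun x => 1 / 2 * gs h f x) x = (1 / 2 : ℝ) • fderiv ℝ (gs h f) x :=
        (((Sbl.c1.differentiable (by norm_num) x).hasFDerivAt).const_mul (1 / 2 : ℝ)).fderiv
      rw [e, norm_smul, Real.norm_eq_abs, abs_of_pos (by norm_num : (0 : ℝ) < 1 / 2)]
      ring
    rw [e1, e2, e3] at h3
    linarith
  -- step 3: the vector field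
  set F : Fin k → E k → ℝ := fun j x => Real.sqrt h * gs h (pd f j) x with hFdef
  have hsq : Real.sqrt h ^ 2 = h := Real.sq_sqrt hh.le
  have hs0 : 0 ≤ Real.sqrt h := Real.sqrt_nonneg h
  have fd : ∀ j x, fderiv ℝ (F j) x = Real.sqrt h • fderiv ℝ (gs h (pd f j)) x := by
    intro j x
    obtain ⟨q1, q2, q3⟩ := h2 k h C (pd f j) hh (pd_bc hf j).c (pd_bc hf j).b
    exact (((q1.differentiable (by norm_num) x).hasFDerivAt).const_mul (Real.sqrt h)).fderiv
  have fdn : ∀ j x, ‖fderiv ℝ (F j) x‖ ^ 2 ≤ gs h (fun y => pd f j y ^ 2) x := by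
    intro j x
    obtain ⟨q1, q2, q3⟩ := h2 k h C (pd f j) hh (pd_bc hf j).c (pd_bc hf j).b
    rw [fd, norm_smul, mul_pow, Real.norm_eq_abs, sq_abs, hsq]
    have h5 := q3 x
    nlinarith [sq_nonneg (gs h (pd f j) x)]
  have hFbl : ∀ j, BL (Real.sqrt h * C + C) (F j) := by
    intro j
    have hj := pd_bc hf j
    obtain ⟨q1, q2, q3⟩ := h2 k h C (pd f j) hh hj.c hj.b
    refine ⟨contDiff_const.mul q1, fun y => ?_, fun y => ?_⟩
    · rw [hFdef]
      simp only
      rw [abs_mul, abs_of_nonneg hs0]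
      have h3 := mul_le_mul_of_nonneg_left ((gs_bc hj hh).b y) hs0
      linarith
    · have h3 : ‖fderiv ℝ (F j) y‖ ^ 2 ≤ C ^ 2 :=
        (fdn j y).trans ((le_abs_self _).trans ((gs_bc hj.sq hh).b y))
      have h4 := abs_le_of_sq_le_sq h3 hC
      rw [abs_of_nonneg (norm_nonneg _)] at h4
      have h5 : 0 ≤ Real.sqrt h * C := mul_nonneg hs0 hC
      linarith
  have hFR : ∀ x, ∑ j, F j x ^ 2 ≤ 4 := by
    intro x
    have e1 : ∑ j, F j x ^ 2 = h * ‖fderiv ℝ (gs h f) x‖ ^ 2 := by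
      rw [norm_sq_pd, Finset.mul_sum]
      refine Finset.sum_congr rfl fun j _ => ?_
      rw [pd_gs hf hh, hFdef]
      simp only
      rw [mul_pow, hsq]
    obtain ⟨q1, q2, q3⟩ := h2 k h C f hh fbc.c fbc.b
    have h3 := q3 x
    have h4 := (le_abs_self _).trans ((gs_bc fbc2.sq hh).b x)
    rw [e1]
    nlinarith [sq_nonneg (gs h f x)]
  have p3 := vec' (M := 1000) hA hν hFbl (by norm_num) hFR
  have p4 : h * G = ∑ j, ∫ x, F j x ^ 2 ∂ν := by
    rw [hG, ← integral_finsetSum _ fun j _ => bc_int (bl_bc (hFbl j)).sq ν, ← integral_const_mul]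
    refine integral_congr_ae (Filter.Eventually.of_forall fun x => ?_)
    simp only
    rw [norm_sq_pd, Finset.mul_sum]
    refine Finset.sum_congr rfl fun j _ => ?_
    rw [pd_gs hf hh, mul_pow, hsq]
  have p5 : ∑ j, ∫ x, ‖fderiv ℝ (F j) x‖ ^ 2 ∂ν ≤ D := by
    have e0 : D = ∑ j, ∫ x, gs h (fun y => pd f j y ^ 2) x ∂ν := by
      rw [hD, ← integral_finsetSum _ fun j _ => bc_int (gs_bc (pd_bc hf j).sq hh) ν]
      unfold ey
      refine integral_congr_ae (Filter.Eventually.of_forall fun x => ?_)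
      simp only
      have e2 : (fun y => ‖fderiv ℝ f y‖ ^ 2) = fun y => ∑ j, pd f j y ^ 2 := by
        funext y
        rw [norm_sq_pd]
      rw [e2, gs_sum Finset.univ (fun j _ => (pd_bc hf j).sq) hh]
    rw [e0]
    refine Finset.sum_le_sum fun j _ => ?_
    exact integral_mono_of_nonneg (Filter.Eventually.of_forall fun x => by positivity)
      (bc_int (gs_bc (pd_bc hf j).sq hh) ν) (Filter.Eventually.of_forall (fdn j))
  -- step 4
  have p6 : ∑ j, (ey h ν (pd f j)) ^ 2 ≤ K ^ 2 := by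
    set v : E k := WithLp.toLp 2 (fun j => ey h ν (pd f j)) with hv
    have hvj : ∀ j, v j = ey h ν (pd f j) := fun j => rfl
    have e1 : ey h ν (fun y => fderiv ℝ f y v) = ∑ j, (ey h ν (pd f j)) ^ 2 := by
      have e2 : (fun y => fderiv ℝ f y v) = fun y => ∑ j, v j * pd f j y := by
        funext y
        exact expand _ _
      rw [e2]
      unfold ey
      have e3 : ∀ x, gs h (fun y => ∑ j, v j * pd f j y) x = ∑ j, v j * gs h (pd f j) x := by
        intro x
        rw [gs_sum Finset.univ (fun j _ => (pd_bc hf j).const_mul (v j)) hh]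
        exact Finset.sum_congr rfl fun j _ => gs_const_mul _ _ _ _
      simp only [e3]
      rw [integral_finsetSum _ fun j _ => (bc_int (gs_bc (pd_bc hf j) hh) ν).const_mul _]
      refine Finset.sum_congr rfl fun j _ => ?_
      rw [integral_const_mul, hvj, pow_two]
      rfl
    have e4 : ‖v‖ ^ 2 = ∑ j, (ey h ν (pd f j)) ^ 2 := by
      rw [EuclideanSpace.norm_sq_eq]
      refine Finset.sum_congr rfl fun j _ => ?_
      rw [Real.norm_eq_abs, sq_abs, hvj]
    have e5 := hKb v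
    rw [e1, ← e4, abs_of_nonneg (by positivity)] at e5
    rw [← e4]
    have hv0 := norm_nonneg v
    by_cases h0 : ‖v‖ = 0
    · rw [h0, zero_pow two_ne_zero]
      positivity
    · have hvp : 0 < ‖v‖ := lt_of_le_of_ne hv0 (Ne.symm h0)
      have e6 : ‖v‖ ≤ K := by
        rw [pow_two] at e5
        exact le_of_mul_le_mul_right e5 hvp
      exact pow_le_pow_left₀ hv0 e6 2
  have p7 : ∑ j, (∫ x, F j x ∂ν) ^ 2 = h * ∑ j, (ey h ν (pd f j)) ^ 2 := by
    rw [Finset.mul_sum]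
    refine Finset.sum_congr rfl fun j _ => ?_
    rw [hFdef]
    simp only
    rw [integral_const_mul, mul_pow, hsq]
    rfl
  have p8 : h * G ≤ h * K ^ 2 + (2 * (1000 ^ 2 * δ + A * D) + 6 / 1000 ^ 2 * 4 * (h * G)) := by
    have h3 : h * ∑ j, (ey h ν (pd f j)) ^ 2 ≤ h * K ^ 2 := mul_le_mul_of_nonneg_left p6 hh.le
    have h4 : A * ∑ j, ∫ x, ‖fderiv ℝ (F j) x‖ ^ 2 ∂ν ≤ A * D :=
      mul_le_mul_of_nonneg_left p5 hA.le
    rw [← p4, p7] at p3
    linarith
  have hG0 : 0 ≤ G := integral_nonneg fun x => by positivity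
  have e7 : ey h ν f = ∫ x, gs h f x ∂ν := rfl
  rw [e7]
  have q1 : A * G ≤ h / 64 * G := mul_le_mul_of_nonneg_right (by linarith) hG0
  have q2 : A * D ≤ h / 64 * D := mul_le_mul_of_nonneg_right (by linarith) hD0
  have hK2 : 0 ≤ h * K ^ 2 := by positivity
  have hDh : 0 ≤ h * D := by positivity
  nlinarith [p1, p2, q1, q2, hK2, hDh, p8]

/-- variances of functions of `X + √h Z`, the error is linear in `δ` -/
theorem t_VARL : S_VARL := t_VARL' (imp gp sg an be) be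

end Pool.Agent.N123.KM
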